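import Pool.Agent.H87.D3.Targets3

/-! Board `d3h_modules`, row EPC: the threshold exists. -/

set_option autoImplicit false

namespace Pool.Agent.H42.D3.EPC

open MeasureTheory Metric Set Filter Topology Pool.Agent.H87.SN Pool.Agent.H87.SH Pool.Agent.H87.AX
open Pool.Agent.H87.D3
open scoped ContDiff RealInnerProductSpace ENNReal

theorem pf_EPC (hEPR : T_EPR) (_hMUF : T_MUF) : T_EPC := by
  intro m L Λ ε hL hΛ hε
  obtain ⟨e₀, he₀, hE⟩ := hEPR m L ε 1 hL hε one_pos
  refine ⟨min (e₀ / 2) Λ, by positivity, min_le_right _ _, ?_⟩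
  intro U u G hSM x r hr hxr hth y hy
  have h1 : min (e₀ / 2) Λ ≤ e₀ / 2 := min_le_left _ _
  have h2 : (mu G).real (ball x r) ≤ e₀ * r := by
    unfold th at hth
    rw [div_lt_iff₀ hr] at hth
    nlinarith
  have h3 := hE Λ U u G hSM x r hr hxr h2 y hy
  rwa [one_pow] at h3

end Pool.Agent.H42.D3.EPC
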