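import Pool.Agent.H87.D3.Targets

/-! Board `d3h_modules`, row EPR: small energy implies regularity and a small gradient. -/

set_option autoImplicit false

namespace Pool.Agent.H42.D3.EPR

open MeasureTheory Metric Set Filter Topology Pool.Agent.H87.SN Pool.Agent.H87.SH Pool.Agent.H87.AX
open Pool.Agent.H87.D3
open scoped ContDiff RealInnerProductSpace ENNReal

theorem pf_EPR (hEPS : T_EPS) (hMUF : T_MUF) : T_EPR := by
  intro m L ε δ hL hε hδ
  obtain ⟨ε₀, hε₀, hE⟩ := hEPS 1 m L (δ / 4) hL (by positivity)
  refine ⟨min (ε / 8) (ε₀ / 4), by positivity, ?_⟩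
  intro Λ U u G hSM x r hr hxr hmu y hy
  set e := min (ε / 8) (ε₀ / 4) with he
  have he1 : e ≤ ε / 8 := min_le_left _ _
  have he2 : e ≤ ε₀ / 4 := min_le_right _ _
  have hfin : mu G univ ≠ ⊤ := (hMUF m G hSM.gd.memG).1
  have hfinS : ∀ S : Set V, mu G S ≠ ⊤ := fun S => ne_top_of_le_ne_top hfin (measure_mono (subset_univ S))
  have hsub : ball x (3 * r / 4) ⊆ U := by
    intro z hz
    by_contra hzU
    have h1 : ball z (r / 4) ⊆ ball x r := by
      apply ball_subset_ball'
      have := mem_ball.1 hz
      linarith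
    have h2 : z ∈ ball (0 : V) 2 := hxr (h1 (mem_ball_self (by positivity)))
    have h3 := hSM.sing z h2 hzU (r / 4) (by positivity) (h1.trans hxr)
    have h4 : (mu G).real (ball z (r / 4)) ≤ (mu G).real (ball x r) :=
      measureReal_mono h1 (hfinS _)
    nlinarith
  have hyU : y ∈ U := hsub (ball_subset_ball (by linarith) hy)
  have hby : ball y (r / 4) ⊆ ball x (3 * r / 4) := by
    apply ball_subset_ball'
    have := mem_ball.1 hy
    linarith
  have hbU := hby.trans hsub
  have hb2 : ball y (r / 4) ⊆ ball (0 : V) 2 :=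
    (hby.trans (ball_subset_ball (by linarith))).trans hxr
  refine ⟨hyU, ?_⟩
  have hHM : HM (1 + 2) m L (ball y (r / 4)) u :=
    ⟨hSM.smooth.mono hbU, fun z hz => hSM.orth z (hbU hz), fun z hz => hSM.lapb z (hbU hz)⟩
  have hen : engy u (ball y (r / 4)) ≤ ENNReal.ofReal (ε₀ * (r / 4) ^ 1) := by
    have h1 : engy u (ball y (r / 4)) = mu G (ball y (r / 4)) := by
      unfold engy mu
      rw [withDensity_apply _ measurableSet_ball, Measure.restrict_restrict measurableSet_ball,
        inter_eq_self_of_subset_left hb2]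
      refine lintegral_congr_ae ?_
      filter_upwards [ae_restrict_of_ae_restrict_of_subset hbU hSM.ae] with z hz
      rw [hz]
      rfl
    rw [h1]
    calc mu G (ball y (r / 4)) ≤ mu G (ball x r) :=
          measure_mono (hby.trans (ball_subset_ball (by linarith)))
      _ = ENNReal.ofReal ((mu G).real (ball x r)) := (ofReal_measureReal (hfinS _)).symm
      _ ≤ ENNReal.ofReal (ε₀ * (r / 4) ^ 1) := by
          apply ENNReal.ofReal_le_ofReal
          nlinarith
  have h5 := hE u y (r / 4) (by positivity) hHM hen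
  nlinarith

end Pool.Agent.H42.D3.EPR
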